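import Pool.Agent.R174.ExtG

/-!
# MP_8e2340_co, Q1: the distinguishing extension number of the plane under `SE(2)` is 4

Full positive answer: `ext_D(ℝ², SE(2)) = 4` (and `D_{SE(2)}(ℝ²) = 2`).
-/

namespace Pool.Agent.Results.MP_8e2340_co.PlaneExtensionNumber

open Pool.Agent.R174.Ext

/-- A `k`-colouring is `Γ`-distinguishing if only the identity preserves it. -/
def Distinguishing (Γ : Type*) {X : Type*} [Group Γ] [MulAction Γ X] {k : ℕ}
    (c : X → Fin k) : Prop :=
  ∀ γ : Γ, (∀ x, c (γ • x) = c x) → γ = 1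

/-- The distinguishing number `D_Γ(X)`. -/
noncomputable def distNumber (Γ X : Type*) [Group Γ] [MulAction Γ X] : ℕ :=
  sInf {k : ℕ | ∃ c : X → Fin k, Distinguishing Γ c}

/-- `W` has trivial pointwise stabiliser. -/
def Admissible (Γ : Type*) {X : Type*} [Group Γ] [MulAction Γ X] (W : Set X) : Prop :=
  ∀ γ : Γ, (∀ x ∈ W, γ • x = x) → γ = 1

/-- Every `k`-colouring of the complement of `W` extends to a `Γ`-distinguishing `k`-colouring. -/
def ExtProp (Γ : Type*) {X : Type*} [Group Γ] [MulAction Γ X] (k : ℕ) (W : Set X) : Prop :=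
  ∀ c : {x : X // x ∉ W} → Fin k,
    ∃ c' : X → Fin k, (∀ x : {x : X // x ∉ W}, c' x = c x) ∧ Distinguishing Γ c'

/-- The distinguishing extension number `ext_D(X, Γ)` (it is `⊤` if there is no such `n`). -/
noncomputable def extD (Γ X : Type*) [Group Γ] [MulAction Γ X] : ℕ∞ :=
  sInf {N : ℕ∞ | ∃ n : ℕ, N = n ∧
    ∀ W : Set X, Admissible Γ W → (n : ℕ∞) ≤ W.encard → ExtProp Γ (distNumber Γ X) W}

/-- `SE(2)`, as a group of permutations of `ℝ²`: the maps `v ↦ A v + b` with `A ∈ SO(2)`. -/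
def SE2 : Subgroup (Equiv.Perm (Fin 2 → ℝ)) where
  carrier := {σ | ∃ A ∈ Matrix.specialOrthogonalGroup (Fin 2) ℝ, ∃ b : Fin 2 → ℝ,
    ∀ v, σ v = A.mulVec v + b}
  one_mem' := ⟨1, one_mem _, 0, fun v => by simp⟩
  mul_mem' := by
    rintro σ τ ⟨A, hA, a, ha⟩ ⟨B, hB, b, hb⟩
    refine ⟨A * B, mul_mem hA hB, A.mulVec b + a, fun v => ?_⟩
    rw [Equiv.Perm.mul_apply, hb, ha, Matrix.mulVec_add, Matrix.mulVec_mulVec, add_assoc]
  inv_mem' := by
    rintro σ ⟨A, hA, a, ha⟩
    have h1 := (Matrix.mem_specialOrthogonalGroup_iff.1 hA).1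
    have h2 : star A * A = 1 := (Matrix.mem_orthogonalGroup_iff' _ _).1 h1
    have hsA : star A ∈ Matrix.specialOrthogonalGroup (Fin 2) ℝ := by
      rw [Matrix.mem_specialOrthogonalGroup_iff]
      constructor
      · exact Unitary.star_mem h1
      · rw [Matrix.star_eq_conjTranspose, Matrix.det_conjTranspose,
          (Matrix.mem_specialOrthogonalGroup_iff.1 hA).2, star_one]
    refine ⟨star A, hsA, -(star A).mulVec a, fun v => ?_⟩
    rw [Equiv.Perm.inv_def, Equiv.symm_apply_eq, ha, Matrix.mulVec_add, Matrix.mulVec_neg,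
      Matrix.mulVec_mulVec, Matrix.mulVec_mulVec]
    have h3 : A * star A = 1 := (Matrix.mem_orthogonalGroup_iff _ _).1 h1
    rw [h3]; simp

/-- The plane as complex numbers. -/
noncomputable def e : (Fin 2 → ℝ) ≃ ℂ where
  toFun v := ⟨v 0, v 1⟩
  invFun z := ![z.re, z.im]
  left_inv v := by
    ext i; fin_cases i <;> rfl
  right_inv z := rfl

lemma e_re (v : Fin 2 → ℝ) : (e v).re = v 0 := rfl

lemma e_im (v : Fin 2 → ℝ) : (e v).im = v 1 := rfl

lemma mv (A : Matrix (Fin 2) (Fin 2) ℝ) (v b : Fin 2 → ℝ) (i : Fin 2) :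
    (A.mulVec v + b) i = A i 0 * v 0 + A i 1 * v 1 + b i := by
  have h : A.mulVec v i = ∑ j, A i j * v j := rfl
  rw [Pi.add_apply, h, Fin.sum_univ_two]

lemma se2_complex (γ : SE2) : ∃ u b : ℂ, ‖u‖ = 1 ∧ (∀ v, e (γ • v) = u * e v + b) ∧
    (u = 1 → b = 0 → γ = 1) := by
  obtain ⟨σ, A, hA, b, hb⟩ := γ
  have h1 := (Matrix.mem_specialOrthogonalGroup_iff.1 hA).1
  have hdet := (Matrix.mem_specialOrthogonalGroup_iff.1 hA).2
  have h2 : star A * A = 1 := (Matrix.mem_orthogonalGroup_iff' _ _).1 h1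
  rw [Matrix.det_fin_two] at hdet
  have e00 := congrFun (congrFun h2 0) 0
  have e01 := congrFun (congrFun h2 0) 1
  have e11 := congrFun (congrFun h2 1) 1
  simp [Matrix.mul_apply, Fin.sum_univ_two, Matrix.star_apply] at e00 e01 e11
  have hs : A 1 1 = A 0 0 := by
    linear_combination (-A 1 1) * e00 + A 0 0 * hdet + A 1 0 * e01
  have hq : A 0 1 = - A 1 0 := by
    linear_combination (-A 0 1) * e00 + A 0 0 * e01 - A 1 0 * hdet
  have hsm : ∀ v : Fin 2 → ℝ, (⟨σ, A, hA, b, hb⟩ : SE2) • v = σ v := fun v => rfl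
  refine ⟨⟨A 0 0, A 1 0⟩, ⟨b 0, b 1⟩, ?_, ?_, ?_⟩
  · have h3 : ‖(⟨A 0 0, A 1 0⟩ : ℂ)‖ ^ 2 = 1 := by
      rw [Complex.sq_norm, Complex.normSq_mk]; exact e00
    have h4 := norm_nonneg (⟨A 0 0, A 1 0⟩ : ℂ)
    nlinarith
  · intro v
    rw [hsm, hb]
    apply Complex.ext
    · rw [e_re, mv, hq, Complex.add_re, Complex.mul_re, e_re, e_im]; ring
    · rw [e_im, mv, hs, Complex.add_im, Complex.mul_im, e_re, e_im]; ring
  · intro hu hb0
    have a1 := congrArg Complex.re hu
    have a2 := congrArg Complex.im hu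
    have a3 := congrArg Complex.re hb0
    have a4 := congrArg Complex.im hb0
    simp at a1 a2 a3 a4
    apply Subtype.ext
    apply Equiv.ext
    intro v
    show σ v = v
    rw [hb]
    ext i
    rw [mv]
    fin_cases i
    · simp [hq, a1, a2, a3]
    · simp [hs, a1, a2, a4]

/-- The half-turn `v ↦ a - v`. -/
def halfTurn (a : Fin 2 → ℝ) : SE2 :=
  ⟨Equiv.subLeft a, -1, by
    rw [Matrix.mem_specialOrthogonalGroup_iff]
    constructor
    · rw [Matrix.mem_orthogonalGroup_iff]; simp
    · rw [Matrix.det_fin_two]; simp, a, fun v => by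
      simp [Equiv.subLeft_apply, Matrix.neg_mulVec, sub_eq_add_neg, add_comm]⟩

lemma halfTurn_smul (a v : Fin 2 → ℝ) : halfTurn a • v = a - v := rfl

lemma halfTurn_ne (a : Fin 2 → ℝ) : halfTurn a ≠ 1 := by
  intro h
  have h1 : halfTurn a • (fun i => a i / 2 + 1) = (fun i => a i / 2 + 1 : Fin 2 → ℝ) := by
    rw [h, one_smul]
  rw [halfTurn_smul] at h1
  have := congrFun h1 0
  simp at this
  linarith

/-- Extension from four points. -/
lemma ext_four (W : Set (Fin 2 → ℝ)) (hW : (4 : ℕ∞) ≤ W.encard) : ExtProp SE2 2 W := by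
  classical
  intro c
  obtain ⟨W', hW'W, hW'⟩ := Set.exists_subset_encard_eq hW
  have hfin : W'.Finite := Set.finite_of_encard_eq_coe (k := 4) (by rw [hW']; rfl)
  set F : Finset (Fin 2 → ℝ) := hfin.toFinset with hF
  have hFc : F.card = 4 := by
    have : (F.card : ℕ∞) = 4 := by
      rw [← Set.encard_coe_eq_coe_finsetCard, hF, Set.Finite.coe_toFinset, hW']
    exact_mod_cast this
  have hFm : ∀ v, v ∈ F ↔ v ∈ W' := fun v => by rw [hF, Set.Finite.mem_toFinset]
  set V : Finset ℂ := F.map e.toEmbedding with hV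
  have hVm : ∀ v, e v ∈ V ↔ v ∈ W' := by
    intro v
    rw [hV, Finset.mem_map_equiv, Equiv.symm_apply_apply, hFm]
  set A : Set ℂ := {z | ∃ h : e.symm z ∉ W, c ⟨e.symm z, h⟩ = 1} with hA
  have hAV : ∀ w ∈ V, w ∉ A := by
    intro w hw hwA
    obtain ⟨h, -⟩ := hwA
    apply h
    apply hW'W
    rw [← hVm, Equiv.apply_symm_apply]
    exact hw
  obtain ⟨S, hSV, hS⟩ := exists_extension A V (by rw [hV, Finset.card_map, hFc]) hAV
  refine ⟨fun v => if e v ∈ A ∨ e v ∈ S then 1 else 0, ?_, ?_⟩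
  · rintro ⟨v, hv⟩
    have h1 : e v ∉ S := by
      intro h
      exact hv (hW'W ((hVm v).1 (hSV h)))
    have h2 : e v ∈ A ↔ c ⟨v, hv⟩ = 1 := by
      constructor
      · rintro ⟨h, h'⟩
        have : (⟨e.symm (e v), h⟩ : {x : Fin 2 → ℝ // x ∉ W}) = ⟨v, hv⟩ :=
          Subtype.ext (Equiv.symm_apply_apply _ _)
        rw [this] at h'
        exact h'
      · intro h
        have h' : e.symm (e v) ∉ W := by rw [Equiv.symm_apply_apply]; exact hv
        refine ⟨h', ?_⟩
        have : (⟨e.symm (e v), h'⟩ : {x : Fin 2 → ℝ // x ∉ W}) = ⟨v, hv⟩ :=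
          Subtype.ext (Equiv.symm_apply_apply _ _)
        rw [this]
        exact h
    by_cases h3 : c ⟨v, hv⟩ = 1
    · simp only [h2, h3, true_or, if_true]
    · have h4 : c ⟨v, hv⟩ = 0 := by
        generalize c ⟨v, hv⟩ = t at h3
        fin_cases t
        · rfl
        · exact absurd rfl h3
      have h5 : ¬ (e v ∈ A ∨ e v ∈ S) := by
        rintro (h | h)
        · exact h3 (h2.1 h)
        · exact h1 h
      simp only [h5, if_false, h4]
  · intro γ hγ
    obtain ⟨u, b, hu, hub, huniq⟩ := se2_complex γ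
    have key := hS u b hu (by
      intro z
      have h1 := hγ (e.symm z)
      simp only [hub, Equiv.apply_symm_apply] at h1
      by_cases h2 : (u * z + b ∈ A ∨ u * z + b ∈ S) <;> by_cases h3 : (z ∈ A ∨ z ∈ S)
      · exact ⟨fun _ => h3, fun _ => h2⟩
      · rw [if_pos h2, if_neg h3] at h1
        exact absurd h1 (by decide)
      · rw [if_neg h2, if_pos h3] at h1
        exact absurd h1 (by decide)
      · exact ⟨fun h => absurd h h2, fun h => absurd h h3⟩)
    exact huniq key.1 key.2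

/-- the point `(t, 0)` -/
def pt (t : ℝ) : Fin 2 → ℝ := ![t, 0]

lemma pt_inj {s t : ℝ} : pt s = pt t ↔ s = t := by
  constructor
  · intro h
    have := congrFun h 0
    simpa [pt] using this
  · intro h; rw [h]

lemma pt_sub (s t : ℝ) : pt s - pt t = pt (s - t) := by
  ext i; fin_cases i <;> simp [pt]

/-- The three-point set showing that `3` does not suffice. -/
def W3 : Set (Fin 2 → ℝ) := {pt (-1), pt 0, pt 1}

lemma W3_encard : W3.encard = 3 := by
  unfold W3
  rw [Set.encard_insert_of_notMem, Set.encard_insert_of_notMem, Set.encard_singleton]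
  · norm_num
  · rw [Set.mem_singleton_iff, pt_inj]; norm_num
  · simp only [Set.mem_insert_iff, Set.mem_singleton_iff, pt_inj]; norm_num

lemma W3_admissible : Admissible SE2 W3 := by
  intro γ hγ
  obtain ⟨u, b, hu, hub, huniq⟩ := se2_complex γ
  have h0 := hub (pt 0)
  have h1 := hub (pt 1)
  rw [hγ (pt 0) (by simp [W3])] at h0
  rw [hγ (pt 1) (by simp [W3])] at h1
  have e0 : e (pt 0) = 0 := by
    apply Complex.ext
    · rw [e_re]; rfl
    · rw [e_im]; rfl
  have e1 : e (pt 1) = 1 := by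
    apply Complex.ext
    · rw [e_re]; rfl
    · rw [e_im]; rfl
  rw [e0] at h0
  rw [e1] at h1
  have hb : b = 0 := by linear_combination -h0
  exact huniq (by linear_combination -h1 - hb) hb

lemma W3_not_ext : ¬ ExtProp SE2 2 W3 := by
  intro h
  obtain ⟨c, hc, hd⟩ := h (fun _ => 0)
  have h0 : ∀ v, v ∉ W3 → c v = 0 := fun v hv => hc ⟨v, hv⟩
  -- it is enough to find a half-turn preserving the second colour class
  have key : ∀ a : ℝ, (∀ v, c v = 1 → c (pt a - v) = 1) → False := by
    intro a ha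
    apply halfTurn_ne (pt a)
    apply hd
    intro v
    rw [halfTurn_smul]
    by_cases h1 : c v = 1
    · rw [ha v h1, h1]
    · have h2 : c (pt a - v) ≠ 1 := by
        intro h3
        have := ha _ h3
        rw [sub_sub_cancel] at this
        exact h1 this
      have two : ∀ t : Fin 2, t ≠ 1 → t = 0 := by decide
      rw [two _ h1, two _ h2]
  have hone : ∀ v, c v = 1 → v = pt (-1) ∨ v = pt 0 ∨ v = pt 1 := by
    intro v hv
    by_contra h1
    have : v ∉ W3 := by
      simpa [W3] using h1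
    rw [h0 v this] at hv
    exact absurd hv (by decide)
  have n2 : pt (-1) - pt 0 = pt (-1) := by rw [pt_sub]; norm_num
  by_cases a : c (pt (-1)) = 1 <;> by_cases b : c (pt 0) = 1 <;> by_cases d : c (pt 1) = 1
  · apply key 0
    intro v hv
    rcases hone v hv with rfl | rfl | rfl
    · rw [pt_sub]; norm_num; exact d
    · rw [pt_sub]; norm_num; exact b
    · rw [pt_sub]; norm_num; exact a
  · apply key (-1)
    intro v hv
    rcases hone v hv with rfl | rfl | rfl
    · rw [pt_sub]; norm_num; exact b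
    · rw [pt_sub]; norm_num; exact a
    · exact absurd hv d
  · apply key 0
    intro v hv
    rcases hone v hv with rfl | rfl | rfl
    · rw [pt_sub]; norm_num; exact d
    · exact absurd hv b
    · rw [pt_sub]; norm_num; exact a
  · apply key (-2)
    intro v hv
    rcases hone v hv with rfl | rfl | rfl
    · rw [pt_sub]; norm_num; exact a
    · exact absurd hv b
    · exact absurd hv d
  · apply key 1
    intro v hv
    rcases hone v hv with rfl | rfl | rfl
    · exact absurd hv a
    · rw [pt_sub]; norm_num; exact d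
    · rw [pt_sub]; norm_num; exact b
  · apply key 0
    intro v hv
    rcases hone v hv with rfl | rfl | rfl
    · exact absurd hv a
    · rw [pt_sub]; norm_num; exact b
    · exact absurd hv d
  · apply key 2
    intro v hv
    rcases hone v hv with rfl | rfl | rfl
    · exact absurd hv a
    · exact absurd hv b
    · rw [pt_sub]; norm_num; exact d
  · apply key 0
    intro v hv
    rcases hone v hv with rfl | rfl | rfl
    · exact absurd hv a
    · exact absurd hv b
    · exact absurd hv d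

lemma distNumber_eq : distNumber SE2 (Fin 2 → ℝ) = 2 := by
  apply le_antisymm
  · apply Nat.sInf_le
    have hinf : (Set.univ : Set (Fin 2 → ℝ)).encard = ⊤ := by
      rw [Set.encard_eq_top_iff]
      exact Set.infinite_univ
    obtain ⟨c', -, hc'⟩ := ext_four Set.univ (by rw [hinf]; exact le_top)
      (fun x => absurd (Set.mem_univ _) x.2)
    exact ⟨c', hc'⟩
  · have hne : {k : ℕ | ∃ c : (Fin 2 → ℝ) → Fin k, Distinguishing SE2 c}.Nonempty := by
      have hinf : (Set.univ : Set (Fin 2 → ℝ)).encard = ⊤ := by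
        rw [Set.encard_eq_top_iff]
        exact Set.infinite_univ
      obtain ⟨c', -, hc'⟩ := ext_four Set.univ (by rw [hinf]; exact le_top)
        (fun x => absurd (Set.mem_univ _) x.2)
      exact ⟨2, c', hc'⟩
    refine le_csInf hne ?_
    rintro k ⟨c, hc⟩
    by_contra hk
    have hk' : k = 0 ∨ k = 1 := by omega
    rcases hk' with rfl | rfl
    · exact (c 0).elim0
    · exact halfTurn_ne 0 (hc _ fun x => Subsingleton.elim _ _)

/-- **MP_8e2340_co, Q1 (full answer).** `D_{SE(2)}(ℝ²) = 2` and `ext_D(ℝ², SE(2)) = 4`. -/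
theorem result : distNumber SE2 (Fin 2 → ℝ) = 2 ∧ extD SE2 (Fin 2 → ℝ) = 4 := by
  refine ⟨distNumber_eq, ?_⟩
  unfold extD
  rw [distNumber_eq]
  apply le_antisymm
  · apply sInf_le
    exact ⟨4, rfl, fun W _ hW => ext_four W hW⟩
  · apply le_sInf
    rintro N ⟨n, rfl, hn⟩
    by_contra hlt
    have h4 : n < 4 := by
      by_contra h
      apply hlt
      exact_mod_cast not_lt.1 h
    refine W3_not_ext (hn W3 W3_admissible ?_)
    rw [W3_encard]
    exact_mod_cast Nat.le_of_lt_succ h4

end Pool.Agent.Results.MP_8e2340_co.PlaneExtensionNumber
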